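import Mathlib
import Pool.Agent.N251.GA.Leaves

/-!
# GA/EVEN: the signature `(2k, 2)` implies abc (helper362)
-/

set_option autoImplicit false

namespace Pool.Agent.N362.GA

open Pool.Agent.N251.GA

theorem t (hTwo : LeafTwo) : LeafEven := by
  intro R _ D k N hk hN h
  have := isDomain D
  have := charZero D
  refine hTwo R D k (2 * N) hk (by omega) ?_
  have hk0 : (2 : ℝ) ≤ k := by exact_mod_cast hk
  have hk1 : 1 / (k : ℝ) ≤ 1 / 2 := one_div_le_one_div_of_le (by norm_num) hk0
  have h2k : 1 / ((2 * k : ℕ) : ℝ) = 1 / 2 * (1 / (k : ℝ)) := by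
    push_cast
    field_simp
  unfold TwoCusps
  refine transfer D 2 0 2 (by norm_num) (θ' := 1 - 1 / ((2 * k : ℕ) : ℝ) - 1 / ((2 : ℕ) : ℝ))
    ?_ ?_ ?_ ?_ ?_ ?_ h
  · rw [h2k]
    push_cast
    linarith
  · rw [h2k]
    push_cast
    linarith
  · intro s _ i
    exact (norm_nonneg _).trans (le_max_left _ _)
  · intro s hs
    exact le_norm_prod D hs.2.1 fun i => le_max_left _ _
  · intro s hs
    exact mul_ne_zero hs.2.1 hs.2.2.1
  · rintro ⟨u, v, x⟩ ⟨hab, hu, hv, hsum, hdvd⟩
    simp only at hab hu hv hsum hdvd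
    right
    have hF : x ^ (2 * k) - (u - v) ^ 2 = 4 * u * v := by
      rw [mul_comm 2 k, pow_mul, ← hsum]; ring
    have h4 : (4 : R) * u * v ≠ 0 := mul_ne_zero (mul_ne_zero (by norm_num) hu) hv
    refine ⟨(x, u - v), ⟨?_, ?_, ?_⟩, ?_, 2, two_ne_zero, ?_, ?_, 2, ?_⟩
    · apply isCoprime_of_max
      intro P hP hx huv
      simp only at hx huv
      have h1 : u + v ∈ P := by rw [hsum]; exact P.pow_mem_of_mem hx k (by omega)
      have h2 : 2 * u ∈ P := by
        have h3 := P.add_mem h1 huv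
        rwa [show u + v + (u - v) = 2 * u by ring] at h3
      have h5 : u ∈ P := by
        rcases hP.isPrime.mem_or_mem h2 with h3 | h3
        · exact mem_of_dvd (dvd_trans ⟨(N : R), by push_cast; ring⟩ hdvd) h3
        · exact h3
      have h6 : v ∈ P := by
        have h3 := P.sub_mem h5 huv
        rwa [show u - (u - v) = v by ring] at h3
      exact not_both hab hP h5 h6
    · intro h5
      simp only at h5
      rw [h5, sub_self] at hF
      exact h4 hF.symm
    · simp only
      rw [hF]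
      have h5 : (N : R) ∣ u := dvd_trans ⟨2, by push_cast; ring⟩ hdvd
      exact (h5.mul_left 4).mul_right v
    · intro i
      simp only
      have e1 : ‖D.σ i x‖ ^ (2 * k) = ‖D.σ i u + D.σ i v‖ ^ 2 := by
        rw [mul_comm 2 k, pow_mul, ← norm_pow, ← map_pow, ← hsum, map_add]
      rw [e1, map_sub]
      set a := D.σ i u
      set b := D.σ i v
      have h5 : ‖a‖ ≤ max ‖a + b‖ ‖a - b‖ := by
        have h6 : ‖(2 : ℂ) * a‖ ≤ ‖a + b‖ + ‖a - b‖ := by
          have h7 : (2 : ℂ) * a = (a + b) + (a - b) := by ring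
          rw [h7]
          exact norm_add_le _ _
        rw [norm_mul, Complex.norm_ofNat] at h6
        have h7 := le_max_left ‖a + b‖ ‖a - b‖
        have h8 := le_max_right ‖a + b‖ ‖a - b‖
        linarith
      have h5' : ‖b‖ ≤ max ‖a + b‖ ‖a - b‖ := by
        have h6 : ‖(2 : ℂ) * b‖ ≤ ‖a + b‖ + ‖a - b‖ := by
          have h7 : (2 : ℂ) * b = (a + b) - (a - b) := by ring
          rw [h7]
          exact norm_sub_le _ _
        rw [norm_mul, Complex.norm_ofNat] at h6
        have h7 := le_max_left ‖a + b‖ ‖a - b‖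
        have h8 := le_max_right ‖a + b‖ ‖a - b‖
        linarith
      have h9 : max ‖a‖ ‖b‖ ^ 2 ≤ max ‖a + b‖ ‖a - b‖ ^ 2 :=
        pow_le_pow_left₀ ((norm_nonneg _).trans (le_max_left _ _)) (max_le h5 h5') 2
      have h10 : max ‖a + b‖ ‖a - b‖ ^ 2 ≤ max (‖a + b‖ ^ 2) (‖a - b‖ ^ 2) := by
        rcases max_cases ‖a + b‖ ‖a - b‖ with ⟨h, -⟩ | ⟨h, -⟩
        · rw [h]; exact le_max_left _ _
        · rw [h]; exact le_max_right _ _
      have h11 : 0 ≤ max (‖a + b‖ ^ 2) (‖a - b‖ ^ 2) := (by positivity : (0:ℝ) ≤ ‖a + b‖ ^ 2).trans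
        (le_max_left _ _)
      linarith
    · simp only
      intro h5
      apply h4
      linear_combination 2 * h5
    · intro i
      rw [Real.rpow_zero, map_ofNat, Complex.norm_ofNat]
      norm_num
    · simp only
      rw [hF]
      exact ⟨u * v, by ring⟩

end Pool.Agent.N362.GA
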